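import Pool.Agent.Lib.MP_76ae7e_lc.Final

/-!
A negative answer to Q1 of MP_76ae7e_lc: a decidable uncountably categorical theory with strongly
autostable prime model and a nonsaturated model that is not strongly autostable.
-/

open FirstOrder Cardinal

namespace Pool.Agent.Results.MP_76ae7e_lc.NonsaturatedNotAutostable

open Pool.Agent.Lib.MP_76ae7e_lc

/-- There is a complete decidable uncountably categorical theory `T` (in the computable language
with binary relation symbols `R_0, R_1, ...`) whose prime model is strongly constructivizable and
strongly autostable, while some countable nonsaturated model of `T` has two strong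
constructivizations that are not autoequivalent. -/
theorem result :
    ∃ T : LR.Theory, T.IsMaximal ∧ IsDecidable T ∧ IsUncountablyCategorical T ∧
      ∃ M₀ M₁ : FirstOrder.Language.Theory.ModelType.{0, 0, 0} T,
        (IsPrimeModel T M₀ ∧ (∃ ν : ℕ → M₀, IsStrongConstructivization M₀ ν) ∧
          IsStronglyAutostable M₀) ∧
        (Countable M₁ ∧ ¬ IsSaturated M₁ ∧
          ∃ ν μ : ℕ → M₁, IsStrongConstructivization M₁ ν ∧ IsStrongConstructivization M₁ μ ∧
            ¬ AutoEquivalent M₁ ν μ) :=
  ⟨Th, Th_isMaximal, Th_decidable, Th_categorical, MdT (pos Empty), MdT (pos Unit),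
    ⟨M0_isPrime, ⟨nu0, nu0_strong⟩, M0_stronglyAutostable⟩,
    (inferInstance : Countable M1), M1_not_saturated, M1_not_stronglyAutostable⟩

end Pool.Agent.Results.MP_76ae7e_lc.NonsaturatedNotAutostable
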